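import Mathlib

namespace Pool.Agent.Results.MP_250e3d_co.Twelve

open Pointwise

/-- `S* = (S \ {2h}) + 2h`. -/
def star (h : ℕ) (S : Set (ZMod (4 * h))) : Set (ZMod (4 * h)) :=
  (S \ {2 * (h : ZMod (4 * h))}) + {2 * (h : ZMod (4 * h))}

/-- `K_o = K \ 2K`. -/
def Ko {n : ℕ} (K : AddSubgroup (ZMod n)) : Set (ZMod n) :=
  (K : Set (ZMod n)) \ ((fun k => 2 * k) '' (K : Set (ZMod n)))

def S0 : Set (ZMod (4 * 3)) := {x | x ≠ 0 ∧ x ≠ 4 ∧ x ≠ 6 ∧ x ≠ 8}

instance : DecidablePred (· ∈ S0) := fun x =>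
  inferInstanceAs (Decidable (x ≠ 0 ∧ x ≠ 4 ∧ x ≠ 6 ∧ x ≠ 8))

lemma mem_star (x : ZMod (4 * 3)) : x ∈ star 3 S0 ↔ x - 6 ∈ S0 ∧ x ≠ 0 := by
  have h6 : 2 * ((3 : ℕ) : ZMod (4 * 3)) = 6 := by decide
  rw [star, h6, Set.add_singleton]
  constructor
  · rintro ⟨y, ⟨h1, h2⟩, rfl⟩
    revert y
    simp only [Set.mem_singleton_iff]
    decide
  · rintro ⟨h1, h2⟩
    refine ⟨x - 6, ⟨h1, ?_⟩, by simp⟩
    revert x
    simp only [Set.mem_singleton_iff]
    decide

theorem result : ∃ (h : ℕ) (S : Set (ZMod (4 * h))), 1 ≤ h ∧ (∀ s ∈ S, -s ∈ S) ∧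
    (0 ∉ S ∧ (SimpleGraph.circulantGraph S).Connected ∧
      ¬ (SimpleGraph.circulantGraph S).Colorable 2 ∧
      Function.Injective (SimpleGraph.circulantGraph S).neighborSet) ∧
    (∃ σ : SimpleGraph.circulantGraph (star h S) ≃g SimpleGraph.circulantGraph (star h S),
      σ 0 = 0 ∧ σ (2 * (h : ZMod (4 * h))) ≠ 2 * (h : ZMod (4 * h))) ∧
    ∀ K : AddSubgroup (ZMod (4 * h)), (∃ q : ℕ, Odd q ∧ Nat.card K = 2 * q) →
      ¬ ((S \ Ko K) + (AddSubgroup.zmultiples (h : ZMod (4 * h)) : Set (ZMod (4 * h)))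
        ⊆ S ∪ Ko K) := by
  have adj : ∀ u v : ZMod (4 * 3), (SimpleGraph.circulantGraph S0).Adj u v ↔ u - v ∈ S0 := by
    intro u v
    rw [SimpleGraph.circulantGraph_adj]
    revert u v
    decide
  refine ⟨3, S0, by omega, by decide, ⟨by decide, ?_, ?_, ?_⟩, ?_, ?_⟩
  · have : ∀ x : ZMod (4 * 3), (SimpleGraph.circulantGraph S0).Reachable 0 x := by
      intro x
      have : ∀ x : ZMod (4 * 3), x = 0 ∨ 0 - x ∈ S0 ∨ 1 - x ∈ S0 := by decide
      rcases this x with rfl | h | h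
      · rfl
      · exact ((adj _ _).2 h).reachable
      · exact ((adj 0 1).2 (by decide)).reachable.trans ((adj _ _).2 h).reachable
    exact ⟨fun u v => (this u).symm.trans (this v)⟩
  · rintro ⟨c⟩
    have h1 := c.valid ((adj 0 1).2 (by decide))
    have h2 := c.valid ((adj 0 2).2 (by decide))
    have h3 := c.valid ((adj 1 2).2 (by decide))
    generalize c 0 = x at *
    generalize c 1 = y at *
    generalize c 2 = z at *
    omega
  · intro u v huv
    have h : ∀ w, u - w ∈ S0 ↔ v - w ∈ S0 := fun w => by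
      rw [← adj, ← adj]
      exact Set.ext_iff.1 huv w
    clear huv
    revert u v
    decide
  · refine ⟨⟨Equiv.swap 2 6, ?_⟩, 
      (by decide : Equiv.swap (2 : ZMod (4 * 3)) 6 0 = 0),
      (by decide : Equiv.swap (2 : ZMod (4 * 3)) 6 (2 * ((3 : ℕ) : ZMod (4 * 3)))
        ≠ 2 * ((3 : ℕ) : ZMod (4 * 3)))⟩
    intro a b
    simp only [SimpleGraph.circulantGraph_adj, mem_star]
    revert a b
    decide
  · rintro K ⟨q, hq, hK⟩ hsub
    have h1 : (1 : ZMod (4 * 3)) ∉ K := fun h1 => by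
      have : K = ⊤ := by
        rw [eq_top_iff]
        intro x _
        have := K.nsmul_mem h1 x.val
        simpa using this
      rw [this] at hK
      simp at hK
      obtain ⟨r, rfl⟩ := hq
      omega
    have h4 : (4 : ZMod (4 * 3)) ∈ S0 ∪ Ko K :=
      hsub ⟨1, ⟨by decide, fun h => h1 h.1⟩, ((3 : ℕ) : ZMod (4 * 3)),
        AddSubgroup.mem_zmultiples _, by decide⟩
    rcases h4 with h4 | h4
    · exact absurd h4 (by decide)
    · exact h4.2 ⟨4 + 4, K.add_mem h4.1 h4.1, by decide⟩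

end Pool.Agent.Results.MP_250e3d_co.Twelve
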